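import Pool.Agent.X84.AvgShadow

set_option autoImplicit false
open Pool.Agent.X84.AvgShadow

namespace Pool.Agent.Results.MP_bdee7b_an.AverageShadowingFactor

/-- **Full answer to Q1: every factor of a system with the average shadowing property has the
average shadowing property.** Systems are continuous self-maps of compact metric spaces. -/
theorem result {X Y : Type*} [MetricSpace X] [CompactSpace X] [MetricSpace Y] [CompactSpace Y]
    (f : X → X) (g : Y → Y) (π : X → Y) (_hf : Continuous f) (hg : Continuous g)
    (hπ : Continuous π) (hs : Function.Surjective π) (hc : π ∘ f = g ∘ π)
    (hA : AverageShadowing f) : AverageShadowing g :=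
  averageShadowing_factor hg hπ hs (fun x => congrFun hc x) hA

end Pool.Agent.Results.MP_bdee7b_an.AverageShadowingFactor
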